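import Mathlib

/-!
# Project MT, package LAM: an unramified non-square unit at a place of good reduction
-/

set_option autoImplicit false

open NumberField IsDedekindDomain

namespace Pool.Agent.Helper83.MT

lemma infinite_places (K : Type) [Field K] [NumberField K] :
    Infinite (HeightOneSpectrum (𝓞 K)) := by
  have key : ∀ p : Nat.Primes, ∃ v : HeightOneSpectrum (𝓞 K),
      v.asIdeal.comap (algebraMap ℤ (𝓞 K)) = Ideal.span {((p : ℕ) : ℤ)} := by
    intro p
    have hp : Prime (((p : ℕ) : ℤ)) := Nat.prime_iff_prime_int.1 p.2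
    have hmax : (Ideal.span {((p : ℕ) : ℤ)}).IsMaximal :=
      PrincipalIdealRing.isMaximal_of_irreducible hp.irreducible
    obtain ⟨Q, hQ, h⟩ := Ideal.exists_ideal_over_maximal_of_isIntegral (S := 𝓞 K)
      (Ideal.span {((p : ℕ) : ℤ)}) (by
        rw [(RingHom.injective_iff_ker_eq_bot _).1 (FaithfulSMul.algebraMap_injective ℤ (𝓞 K))]
        exact bot_le)
    refine ⟨⟨Q, hQ.isPrime, ?_⟩, h⟩
    rintro rfl
    have h1 : (Ideal.span {((p : ℕ) : ℤ)} : Ideal ℤ) = ⊥ := by
      rw [← h]
      rw [← RingHom.ker_eq_comap_bot,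
        (RingHom.injective_iff_ker_eq_bot _).1 (FaithfulSMul.algebraMap_injective ℤ (𝓞 K))]
    rw [Ideal.span_singleton_eq_bot] at h1
    exact hp.ne_zero h1
  choose f hf using key
  refine Infinite.of_injective f fun p q h => ?_
  have h1 := (hf p).symm.trans
    ((congrArg (fun v => v.asIdeal.comap (algebraMap ℤ (𝓞 K))) h).trans (hf q))
  rw [Ideal.span_singleton_eq_span_singleton] at h1
  have h2 := Int.associated_iff_natAbs.1 h1
  apply Subtype.ext
  simpa using h2

/-- all but finitely many places: `e` is a unit -/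
lemma finite_bad (K : Type) [Field K] [NumberField K] (e : K) (he : e ≠ 0) :
    {v : HeightOneSpectrum (𝓞 K) | v.valuation K e ≠ 1}.Finite := by
  refine ((HeightOneSpectrum.Support.finite (𝓞 K) e).union
    (HeightOneSpectrum.Support.finite (𝓞 K) e⁻¹)).subset ?_
  intro v hv
  rcases lt_or_gt_of_ne hv with h | h
  · right
    show 1 < v.valuation K e⁻¹
    rw [map_inv₀]
    exact (one_lt_inv₀ (zero_lt_iff.2 ((Valuation.ne_zero_iff _).2 he))).2 h
  · left
    exact h

lemma exists_place (K : Type) [Field K] [NumberField K] (S : Finset K) (hS : ∀ e ∈ S, e ≠ 0) :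
    ∃ v : HeightOneSpectrum (𝓞 K), ∀ e ∈ S, v.valuation K e = 1 := by
  have hfin : (⋃ e ∈ S, {v : HeightOneSpectrum (𝓞 K) | v.valuation K e ≠ 1}).Finite :=
    Set.Finite.biUnion S.finite_toSet fun e he => finite_bad K e (hS e he)
  have := infinite_places K
  obtain ⟨v, hv⟩ := hfin.exists_notMem
  refine ⟨v, fun e he => ?_⟩
  by_contra h
  exact hv (Set.mem_biUnion he h)

/-- **Package LAM** -/
theorem lam (k : Type) [Field k] [NumberField k] (S : Finset k) (hS : ∀ e ∈ S, e ≠ 0) :
    ∃ (v : HeightOneSpectrum (𝓞 k)) (l m : k), (∀ e ∈ S, v.valuation k e = 1) ∧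
      v.valuation k l = 1 ∧ v.valuation k (1 - l) = 1 ∧ v.valuation k m = WithZero.exp (-1) ∧
      ∀ u z : k, v.valuation k (u ^ 2 - l * z ^ 2) = (max (v.valuation k u) (v.valuation k z)) ^ 2 := by
  classical
  obtain ⟨v, hv⟩ := exists_place k (insert 2 S) (by
    intro e he
    rcases Finset.mem_insert.1 he with rfl | h
    · exact two_ne_zero
    · exact hS e h)
  have h2 : v.valuation k (2 : k) = 1 := hv 2 (Finset.mem_insert_self _ _)
  have : v.asIdeal.IsMaximal := v.isMaximal
  let : Field (𝓞 k ⧸ v.asIdeal) := Ideal.Quotient.field v.asIdeal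
  have : Finite (𝓞 k ⧸ v.asIdeal) := Ideal.finiteQuotientOfFreeOfNeBot v.asIdeal v.ne_bot
  have : Fintype (𝓞 k ⧸ v.asIdeal) := Fintype.ofFinite _
  have hchar : ringChar (𝓞 k ⧸ v.asIdeal) ≠ 2 := by
    intro h
    have h3 : ((2 : ℕ) : 𝓞 k ⧸ v.asIdeal) = 0 := by rw [← h]; exact ringChar.Nat.cast_ringChar
    have h4 : Ideal.Quotient.mk v.asIdeal (2 : 𝓞 k) = 0 := by
      rw [map_ofNat]
      exact_mod_cast h3
    rw [Ideal.Quotient.eq_zero_iff_mem, ← HeightOneSpectrum.valuation_lt_one_iff_mem (K := k)] at h4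
    have h5 : (algebraMap (𝓞 k) k) 2 = 2 := map_ofNat _ 2
    have h6 : v.valuation k ((algebraMap (𝓞 k) k) 2) < 1 := h4
    rw [h5, h2] at h6
    exact lt_irrefl _ h6
  obtain ⟨a, ha⟩ := FiniteField.exists_nonsquare hchar
  obtain ⟨l, rfl⟩ := Ideal.Quotient.mk_surjective a
  obtain ⟨m, hm⟩ := v.valuation_exists_uniformizer k
  have key : ∀ r : 𝓞 k, v.valuation k ((algebraMap (𝓞 k) k) (r ^ 2 - l)) = 1 := by
    intro r
    rw [HeightOneSpectrum.valuation_eq_one_iff_notMem]
    intro h
    rw [← Ideal.Quotient.eq_zero_iff_mem, map_sub, map_pow, sub_eq_zero] at h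
    exact ha ⟨_, by rw [← h, sq]⟩
  have hl : v.valuation k ((algebraMap (𝓞 k) k) l) = 1 := by
    have h := key 0
    rw [zero_pow two_ne_zero, zero_sub, map_neg, Valuation.map_neg] at h
    exact h
  refine ⟨v, algebraMap (𝓞 k) k l, m, fun e he => hv e (Finset.mem_insert_of_mem he), hl, ?_, hm,
    ?_⟩
  · have h := key 1
    rw [one_pow, map_sub, map_one] at h
    exact h
  · intro u z
    rcases lt_or_ge (v.valuation k z) (v.valuation k u) with h | h
    · have h1 : v.valuation k (algebraMap (𝓞 k) k l * z ^ 2) < v.valuation k (u ^ 2) := by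
        rw [map_mul, hl, one_mul, map_pow, map_pow]
        exact pow_lt_pow_left₀ h zero_le two_ne_zero
      rw [Valuation.map_sub_eq_of_lt_left _ h1, map_pow, max_eq_left h.le]
    · rw [max_eq_right h]
      rcases eq_or_ne z 0 with rfl | hz
      · rw [map_zero] at h
        have hu : u = 0 := (Valuation.zero_iff _).1 (le_antisymm h zero_le)
        rw [hu]
        simp
      · have hz0 : v.valuation k z ≠ 0 := (Valuation.ne_zero_iff _).2 hz
        have e1 : u ^ 2 - algebraMap (𝓞 k) k l * z ^ 2 =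
            z ^ 2 * ((u / z) ^ 2 - algebraMap (𝓞 k) k l) := by
          field_simp
        rw [e1, map_mul, map_pow]
        suffices hs : v.valuation k ((u / z) ^ 2 - algebraMap (𝓞 k) k l) = 1 by
          rw [hs, mul_one]
        have hy : v.valuation k (u / z) ≤ 1 := by
          rw [map_div₀]
          exact div_le_one_of_le₀ h zero_le
        obtain ⟨r, hr⟩ := v.exists_valuation_sub_lt_of_integer hy 1
        rw [Units.val_one] at hr
        have e2 : (u / z) ^ 2 - algebraMap (𝓞 k) k l = (algebraMap (𝓞 k) k) (r ^ 2 - l) -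
            (algebraMap (𝓞 k) k r - u / z) * (algebraMap (𝓞 k) k r + u / z) := by
          rw [map_sub, map_pow]
          ring
        have h3 : v.valuation k ((algebraMap (𝓞 k) k r - u / z) *
            (algebraMap (𝓞 k) k r + u / z)) < 1 := by
          rw [map_mul]
          have h4 : v.valuation k (algebraMap (𝓞 k) k r + u / z) ≤ 1 :=
            (Valuation.map_add _ _ _).trans (max_le (v.valuation_le_one r) hy)
          calc v.valuation k (algebraMap (𝓞 k) k r - u / z) *
              v.valuation k (algebraMap (𝓞 k) k r + u / z)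
              ≤ v.valuation k (algebraMap (𝓞 k) k r - u / z) * 1 := by gcongr
            _ < 1 := by rw [mul_one]; exact hr
        rw [e2, Valuation.map_sub_eq_of_lt_left _ (by rw [key r]; exact h3), key r]

end Pool.Agent.Helper83.MT
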