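import Pool.Graph.R_seed8.TH954.SLem
import Pool.Graph.R_seed8.TH120.Sec.ExL

/-!
# Project MT, package TWO: a point modulo which a quotient is not a square
-/

set_option autoImplicit false

open NumberField IsDedekindDomain

namespace Pool.Agent.Helper83.MT

lemma common_denominator (L : Type) [Field L] [NumberField L] (z1 z2 : L) :
    ∃ D : ℤ, D ≠ 0 ∧ IsIntegral ℤ ((D : L) * z1) ∧ IsIntegral ℤ ((D : L) * z2) := by
  have alg : ∀ z : L, ∃ D : ℤ, D ≠ 0 ∧ IsIntegral ℤ ((D : L) * z) := by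
    intro z
    have h : IsAlgebraic ℤ z :=
      (IsFractionRing.isAlgebraic_iff ℤ ℚ L).2 (Algebra.IsAlgebraic.isAlgebraic z)
    obtain ⟨D, hD, h1⟩ := h.exists_integral_multiple
    refine ⟨D, hD, ?_⟩
    rw [zsmul_eq_mul] at h1
    exact h1
  obtain ⟨D1, hD1, h1⟩ := alg z1
  obtain ⟨D2, hD2, h2⟩ := alg z2
  refine ⟨D1 * D2, mul_ne_zero hD1 hD2, ?_, ?_⟩
  · have e : ((D1 * D2 : ℤ) : L) * z1 = (D2 : L) * ((D1 : L) * z1) := by push_cast; ring
    rw [e]
    exact (isIntegral_algebraMap (R := ℤ) (A := L) (x := D2)).mul h1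
  · have e : ((D1 * D2 : ℤ) : L) * z2 = (D1 : L) * ((D2 : L) * z2) := by push_cast; ring
    rw [e]
    exact (isIntegral_algebraMap (R := ℤ) (A := L) (x := D1)).mul h2

/-- the statement inside a number field -/
lemma two_field (F : Type) [Field F] [NumberField F] (t1 t2 : F) (h : t1 ≠ t2) :
    ∃ (a : ℕ) (D : ℤ), D ≠ 0 ∧ (a : F) / (D : F) ≠ t2 ∧
      ∀ w : F, t1 - (a : F) / (D : F) ≠ w ^ 2 * (t2 - (a : F) / (D : F)) := by
  obtain ⟨L, _, _, _, i, -⟩ := Pool.Agent.TH120.Sec.exists_L F ∅ Set.finite_empty 1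
  obtain ⟨D, hD, h1, h2⟩ := common_denominator L (i t1) (i t2)
  have hDL : (D : L) ≠ 0 := by exact_mod_cast hD
  have hDF : (D : F) ≠ 0 := by exact_mod_cast hD
  set s1 : 𝓞 L := ⟨(D : L) * i t1, h1⟩ with hs1
  set s2 : 𝓞 L := ⟨(D : L) * i t2, h2⟩ with hs2
  have e1 : (s1 : L) = (D : L) * i t1 := rfl
  have e2 : (s2 : L) = (D : L) * i t2 := rfl
  have hne : s1 ≠ s2 := by
    intro hh
    have h3 : (s1 : L) = (s2 : L) := by rw [hh]
    rw [e1, e2] at h3
    exact h (i.injective (mul_left_cancel₀ hDL h3))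
  obtain ⟨p, hp, -, a1, ha1⟩ := Pool.Agent.TH954.good_residue L le_rfl s1 s2 hne 1 one_pos
  have hex : ∃ a : ℕ, a ≡ a1 [MOD p ^ 2] ∧ (a : L) ≠ s2 := by
    by_cases hc : (a1 : L) = s2
    · refine ⟨a1 + p ^ 2, by simp [Nat.ModEq], ?_⟩
      rw [← hc]
      intro h3
      have h4 : a1 + p ^ 2 = a1 := by exact_mod_cast h3
      have h5 : 0 < p ^ 2 := pow_pos hp.pos 2
      omega
    · exact ⟨a1, Nat.ModEq.refl _, hc⟩
  obtain ⟨a, ha, hac⟩ := hex
  refine ⟨a, D, hD, ?_, ?_⟩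
  · intro h3
    apply hac
    rw [e2, ← h3, map_div₀, map_natCast, map_intCast]
    field_simp
  · intro w hw
    apply ha1 a ha (i w)
    have h3 := congrArg i hw
    rw [map_mul, map_pow, map_sub, map_sub, map_div₀, map_natCast, map_intCast] at h3
    rw [e1, e2]
    have h4 : (D : L) * i t1 - a = (D : L) * (i t1 - (a : L) / (D : L)) := by field_simp
    have h5 : (D : L) * i t2 - a = (D : L) * (i t2 - (a : L) / (D : L)) := by field_simp
    rw [h4, h3, h5]
    ring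

/-- **Package TWO** -/
theorem two (k : Type) [Field k] [NumberField k] (Ω : Type) [Field Ω] [Algebra k Ω] (θ1 θ2 : Ω)
    (h1 : IsAlgebraic k θ1) (h2 : IsAlgebraic k θ2) (h : θ1 ≠ θ2) :
    ∃ c : k, algebraMap k Ω c ≠ θ2 ∧ ∀ w ∈ IntermediateField.adjoin k {θ1, θ2},
      θ1 - algebraMap k Ω c ≠ w ^ 2 * (θ2 - algebraMap k Ω c) := by
  let F := IntermediateField.adjoin k ({θ1, θ2} : Set Ω)
  have hfin : FiniteDimensional k F := by
    refine IntermediateField.finiteDimensional_adjoin fun x hx => ?_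
    rcases hx with rfl | hx
    · exact h1.isIntegral
    · rw [Set.mem_singleton_iff] at hx
      rw [hx]
      exact h2.isIntegral
  have hnf : NumberField F := NumberField.of_module_finite k F
  have m1 : θ1 ∈ F := IntermediateField.subset_adjoin k _ (by simp)
  have m2 : θ2 ∈ F := IntermediateField.subset_adjoin k _ (by simp)
  obtain ⟨a, D, hD, hc, hw⟩ := two_field F ⟨θ1, m1⟩ ⟨θ2, m2⟩
    (fun hh => h (congrArg (Subtype.val) hh))
  have key : ∀ x : F, x = (a : F) / (D : F) → (x : Ω) = algebraMap k Ω ((a : k) / (D : k)) := by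
    rintro x rfl
    rw [map_div₀, map_natCast, map_intCast]
    push_cast
    rfl
  refine ⟨(a : k) / (D : k), ?_, ?_⟩
  · intro hh
    apply hc
    apply Subtype.ext
    rw [key _ rfl]
    exact hh
  · intro w hwF hh
    apply hw ⟨w, hwF⟩
    apply Subtype.ext
    show θ1 - (((a : F) / (D : F) : F) : Ω) = w ^ 2 * (θ2 - (((a : F) / (D : F) : F) : Ω))
    rw [key _ rfl]
    exact hh

end Pool.Agent.Helper83.MT
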